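import Pool.Agent.N353.PT.Stm

/-!
# A shortest path contains few neighbours of a vertex (project PT)
-/

set_option autoImplicit false

open Finset
open scoped Classical

namespace Pool.Agent.N482.PT

open Pool.Agent.N353.PT

variable {V : Type}

/-- a layer -/
noncomputable def Ly (U : Finset V) (d : V → ℕ) (s : ℕ) : Finset V := U.filter fun u => d u = s

lemma mem_Ly {U : Finset V} {d : V → ℕ} {s : ℕ} {u : V} : u ∈ Ly U d s ↔ u ∈ U ∧ d u = s := by
  simp [Ly]

lemma layer {T : V → V → Prop} {U : Finset V} {d : V → ℕ} {M : ℕ} (hc : Conn T M U)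
    (d1 : ∀ u ∈ U, ∀ v ∈ U, T u v → d v ≤ d u + 1) {x y : V} (hx : x ∈ U) (hx0 : d x = 0)
    (hy : y ∈ U) {s : ℕ} (hs : 1 ≤ s) (hsy : s < d y) : M ≤ (Ly U d s).card := by
  by_contra hcon
  push Not at hcon
  have hxm : x ∈ U \ Ly U d s := by
    rw [mem_sdiff, mem_Ly]
    exact ⟨hx, fun h => by omega⟩
  have hym : y ∈ U \ Ly U d s := by
    rw [mem_sdiff, mem_Ly]
    exact ⟨hy, fun h => by omega⟩
  have hr := hc (Ly U d s) hcon x hxm y hym
  have key : ∀ v, Reach T (U \ Ly U d s) x v → d v < s := by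
    intro v hv
    induction hv with
    | refl => omega
    | tail _ hbc ih =>
      obtain ⟨hb, hc', hT⟩ := hbc
      have h1 := d1 _ (mem_sdiff.1 hb).1 _ (mem_sdiff.1 hc').1 hT
      have h2 := (mem_sdiff.1 hc').2
      rw [mem_Ly] at h2
      have h3 : ¬ d _ = s := fun h => h2 ⟨(mem_sdiff.1 hc').1, h⟩
      omega
  have := key y hr
  omega

lemma layers {U F : Finset V} {d : V → ℕ} {M : ℕ} (S : Finset ℕ)
    (h : ∀ s ∈ S, M ≤ (Ly U d s).card) (hF : ∀ s ∈ S, Ly U d s ⊆ F) : M * S.card ≤ F.card := by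
  have h1 : (S.biUnion fun s => Ly U d s).card = ∑ s ∈ S, (Ly U d s).card := by
    apply card_biUnion
    intro s _ s' _ hne
    refine Finset.disjoint_left.2 fun v hv hv' => ?_
    exact hne ((mem_Ly.1 hv).2.symm.trans (mem_Ly.1 hv').2)
  have h2 : (S.biUnion fun s => Ly U d s) ⊆ F := biUnion_subset.2 hF
  calc M * S.card = ∑ s ∈ S, M := by rw [sum_const, smul_eq_mul, mul_comm]
    _ ≤ ∑ s ∈ S, (Ly U d s).card := sum_le_sum h
    _ = _ := h1.symm
    _ ≤ F.card := card_le_card h2

theorem t_CNT : S_CNT := by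
  intro V _ T hT U S0 S1 d r p M hG hc z hz
  have hp0 : p 0 ∈ U := hG.pU 0 (Nat.zero_le _)
  have hd0 : d (p 0) = 0 := hG.pd 0 (Nat.zero_le _)
  have hpr : p r ∈ U := hG.pU r le_rfl
  have hdr : d (p r) = r := hG.pd r le_rfl
  constructor
  · have h1 : M * (Icc (d z + 2) (r - 1)).card ≤ (inN T z).card := by
      apply layers (U := U) (d := d)
      · intro s hs
        rw [mem_Icc] at hs
        exact layer hc hG.d1 hp0 hd0 hpr (by omega) (by omega)
      · intro s hs u hu
        rw [mem_Icc] at hs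
        obtain ⟨hu1, hu2⟩ := mem_Ly.1 hu
        have h2 : ¬ T z u := fun h => by
          have := hG.d1 z hz u hu1 h
          omega
        have h3 : u ≠ z := by
          rintro rfl
          omega
        rw [inN, mem_filter]
        exact ⟨mem_univ _, (hT.2 u z h3).2 h2⟩
    have h2 : (inN T z ∩ PP r p).card ≤ (Icc (d z - 1) r).card := by
      refine (card_le_card (t := (Icc (d z - 1) r).image p) ?_).trans card_image_le
      intro u hu
      obtain ⟨hu1, hu2⟩ := mem_inter.1 hu
      rw [inN, mem_filter] at hu1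
      rw [PP, mem_image] at hu2
      obtain ⟨s, hs, rfl⟩ := hu2
      rw [mem_range] at hs
      have h3 := hG.d1 _ (hG.pU s (by omega)) z hz hu1.2
      rw [hG.pd s (by omega)] at h3
      rw [mem_image]
      exact ⟨s, by rw [mem_Icc]; omega, rfl⟩
    rw [Nat.card_Icc] at h1 h2
    have h3 : (inN T z ∩ PP r p).card ≤ (r - 1 + 1 - (d z + 2)) + 4 := by
      have := hG.r0
      omega
    calc M * (inN T z ∩ PP r p).card ≤ M * ((r - 1 + 1 - (d z + 2)) + 4) :=
          Nat.mul_le_mul_left _ h3
      _ = 4 * M + M * (r - 1 + 1 - (d z + 2)) := by ring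
      _ ≤ _ := by omega
  · have h1 : M * (Icc 1 (d z - 2)).card ≤ (outN T z).card := by
      apply layers (U := U) (d := d)
      · intro s hs
        rw [mem_Icc] at hs
        exact layer hc hG.d1 hp0 hd0 hz (by omega) (by omega)
      · intro s hs u hu
        rw [mem_Icc] at hs
        obtain ⟨hu1, hu2⟩ := mem_Ly.1 hu
        have h2 : ¬ T u z := fun h => by
          have := hG.d1 u hu1 z hz h
          omega
        have h3 : z ≠ u := by
          rintro rfl
          omega
        rw [outN, mem_filter]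
        exact ⟨mem_univ _, (hT.2 z u h3).2 h2⟩
    have h2 : (outN T z ∩ PP r p).card ≤ (Icc 0 (d z + 1)).card := by
      refine (card_le_card (t := (Icc 0 (d z + 1)).image p) ?_).trans card_image_le
      intro u hu
      obtain ⟨hu1, hu2⟩ := mem_inter.1 hu
      rw [outN, mem_filter] at hu1
      rw [PP, mem_image] at hu2
      obtain ⟨s, hs, rfl⟩ := hu2
      rw [mem_range] at hs
      have h3 := hG.d1 z hz _ (hG.pU s (by omega)) hu1.2
      rw [hG.pd s (by omega)] at h3
      rw [mem_image]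
      exact ⟨s, by rw [mem_Icc]; omega, rfl⟩
    rw [Nat.card_Icc] at h1 h2
    have h3 : (outN T z ∩ PP r p).card ≤ (d z - 2 + 1 - 1) + 4 := by omega
    calc M * (outN T z ∩ PP r p).card ≤ M * ((d z - 2 + 1 - 1) + 4) :=
          Nat.mul_le_mul_left _ h3
      _ = 4 * M + M * (d z - 2 + 1 - 1) := by ring
      _ ≤ _ := by omega

end Pool.Agent.N482.PT
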